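import Pool.Agent.P.MP_2cb329_al.H.Search
import Pool.Agent.P.MP_2cb329_al.HI
import Pool.Agent.P.MP_2cb329_al.F.Bridge
import Pool.Agent.P.MP_2cb329_al.F.Asm
import Pool.Agent.P.MP_2cb329_al.F.MTop
import Pool.Agent.P.MP_2cb329_al.F.RTT
import Pool.Agent.P.MP_2cb329_al.F.GMain
import Pool.Agent.P.MP_2cb329_al.EG.Top

set_option autoImplicit false

namespace Pool.Agent.Results.MP_2cb329_al.PrimRecSearch

/-- Let `G` be a group isomorphic to a one-relator group and let `π` be any finite generating
family of `G`. Then a primitive recursive function of two words `u`, `v` in the generators and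
their inverses returns `none` exactly when they are not conjugate in `G`, and otherwise returns a
word `w` with `w⁻¹ u w = v` in `G`. -/
theorem result (n : ℕ) (r : FreeGroup (Fin n)) (G : Type*) [Group G]
    (e : G ≃* PresentedGroup ({r} : Set (FreeGroup (Fin n))))
    (m : ℕ) (π : FreeGroup (Fin m) →* G) (hπ : Function.Surjective π) :
    ∃ c : List (Fin m × Bool) × List (Fin m × Bool) → Option (List (Fin m × Bool)),
      Primrec c ∧ ∀ u v : List (Fin m × Bool),
        (c (u, v) = none ↔ ¬ IsConj (π (FreeGroup.mk u)) (π (FreeGroup.mk v))) ∧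
        ∀ w, c (u, v) = some w →
          (π (FreeGroup.mk w))⁻¹ * π (FreeGroup.mk u) * π (FreeGroup.mk w) =
            π (FreeGroup.mk v) := by
  have hF : CPOR.S_F := CPOR.sF_of_sys (CPOR.gall_of_blocks CPOR.s_gap CPOR.rtt
    (CPOR.s_eg CPOR.s_neg) CPOR.s_neg CPOR.s_exp)
  obtain ⟨h1, h2⟩ := CPOR.cp_fill hF n r
  obtain ⟨c, hc, hf⟩ := CPOR.Srch.transfer _ (PresentedGroup.mk_surjective _)
    (e.toMonoidHom.comp π) (e.surjective.comp hπ)
    (CPOR.Srch.search_of _ (PresentedGroup.mk_surjective _) r (PresentedGroup.one_of_mem rfl)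
      h1 h2)
  refine ⟨c, hc, fun u v => ⟨(hf u v).1.trans (not_congr ⟨fun h => ?_, fun h => ?_⟩),
    fun w hw => e.injective ?_⟩⟩
  · have := e.symm.toMonoidHom.map_isConj h
    simpa using this
  · exact e.toMonoidHom.map_isConj h
  · have := (hf u v).2 w hw
    simpa using this

end Pool.Agent.Results.MP_2cb329_al.PrimRecSearch
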